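import Pool.Agent.Lib.MP_23b606_ag.DS.Main

/-!
# Kodaira dimension and uniruledness for arbitrary systems of diagonal equations

`K` is the function field of an irreducible component `X`, not contained in a coordinate hyperplane,
of a system of diagonal equations `∑_i a_qi x_i^N = b_q`, `q ∈ κ`, `N ≥ 2`, with arbitrary complex
coefficients (the rows `a_q` are linearly independent, `n = dim X` is the number of unknowns minus the
number of equations). These are all components of all systems of diagonal equations
`∑_j a_qj x_j^N = 0` in projective spaces (leave out the coordinates which vanish on `X` and the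
dependent equations, put one coordinate equal to `1`), equivalently all Hirzebruch-Kummer coverings
of exponent `N` of `P^n` branched along an arbitrary arrangement of hyperplanes. Nothing is assumed
about the singularities.

`DS.pw N x : Option ι → K` is the family `1` (index `none`), `x_i^N` (index `some i`), and
`DS.rk ℂ (DS.pw N x) B` is the dimension of the `ℂ`-span of its members with index in `B`; all of them
span a space of dimension `n + 1`. `DS.BadPart N n x P` says that `P` is a partition of the index set
into `s ≥ 2` nonempty sets `B` with `N (∑ rk B - (n + 1)) < s`.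

If there is such a partition, then `X` is uniruled. If there is none, then there is a nonzero
`N`-canonical form which is regular at all divisorial valuation rings (`DS.HasForm`), that is
`P_N(X) ≥ 1`. So `P_N(X) = 0`, in particular `κ(X) = -∞` (`T1.KodairaNegInf K n`, see `DS.main'`),
implies that `X` is uniruled.
-/

theorem Pool.Agent.Results.MP_23b606_ag.DiagonalSystems.result
    {K : Type} [Field K] [Algebra ℂ K] {ι κ : Type} [Fintype ι] [Fintype κ] {N n : ℕ}
    (hN : 2 ≤ N) (A : κ → ι → ℂ) (hA : LinearIndependent ℂ A) (b : κ → ℂ) (x : ι → K)
    (hx : ∀ i, x i ≠ 0) (hgen : IntermediateField.adjoin ℂ (Set.range x) = ⊤)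
    (hAb : ∀ q, ∑ i, algebraMap ℂ K (A q i) * x i ^ N = algebraMap ℂ K (b q))
    (htr : Algebra.trdeg ℂ K = n) (hdim : n + Fintype.card κ = Fintype.card ι) :
    ((∃ P, DS.BadPart N n x P) → T1.Uniruled K) ∧
      ((¬ ∃ P, DS.BadPart N n x P) → DS.HasForm K n N) :=
  DS.main hN A hA b x hx hgen hAb htr hdim
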