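import Pool.Agent.Lib.MP_23b606_ag.PM.Fin

/-!
# Kodaira dimension and uniruledness for quotients of products of curves

`L` is the field of rational functions on a product `C_1 × ... × C_n` of curves over `ℂ`: it is
generated by the subfields `F i` of transcendence degree one (the rational functions on `C_i`) and has
transcendence degree `n`. `G` is a finite group of automorphisms of `L` over `ℂ` which permutes the
`F i` (it acts on the product and permutes the factors; if the genera are at least `2` all finite groups
of automorphisms of the product do), and `K = fixedField G` is the field of rational functions on
`X = (C_1 × ... × C_n) / G`, a smooth projective model of which is meant by the Kodaira dimension and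
the plurigenera of `K`. `G_i` is the stabiliser of `C_i` and `B_i = C_i / G_i`.

`m` is a positive even number and `bl` gives the blocks of a `G`-invariant partition of the curves. The
forms on `X` are built from `m`-canonical forms `h (z dt)^m` on `B_i`, where `z` runs through a space of
functions on `B_i` whose dimension is the number `b` of curves in the block of `C_i`: their product, times
the power of the determinants of the blocks. `R_i(x)`, `x ∈ C_i`, is at most `m` plus the order of the
forms at `x`. `PM.Weights` lists what is allowed, `e` is the ramification index of `C_i → B_i` at `x`:

(1) for a block with one element and `12 ∣ m`: `max (m, m e / 6)` (such a form exists on all curves `C_i`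
which are not rational);
(2) if the genus of `B_i` is at least `b`: `m e` (`h = 1`, `z dt` regular differentials on `B_i`);
(3) if `B_i` is a line: `e (m - w_c)` over the point `c`, where the pole orders `w_c` have sum
`(b + 1) m` and satisfy `m ≤ e (m - w_c)`;
(4) any forms on `B_i` which are regular on `C_i`.

Suppose that for every `g ≠ 1` in `G` which maps all the `C_i` to themselves, and for every fixed point
`x` of `g`, where `g` acts on the cotangent space of `C_i` at `x_i` by `exp (2 π i θ_i)`,
`0 ≤ θ_i < 1`, one has `∑ R_i(x_i) θ_i ≥ m`. For a `g` which exchanges `C_i` and `C_j` and maps the other
curves to themselves suppose that `i` and `j` are in one block, or that at every fixed point the similar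
sum, over the other curves and `g ^ 2` on `C_i`, is at least `m / 2`. There is no condition on the other
elements of `G`. Then either one of the `C_i` is rational, and `K` is uniruled, or none of them is
rational and there is a nonzero `m`-canonical form on `K` which is regular at all divisorial valuation
rings, so that `P_m ≥ 1`. In particular Kodaira dimension `-∞` implies uniruled.

With `R_i = m` the condition on `g` is the criterion of Reid and Tai (`∑ θ_i ≥ 1`). The weights allow
quotients whose singularities are not canonical: `g` may act near a fixed point with an age less than
`1`. For instance, with `R_i = 2 e`, `m = 12`, it is enough that every `g ≠ 1` which has a fixed point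
acts non-trivially on at least six of the `C_i`.
-/

theorem Pool.Agent.Results.MP_23b606_ag.ProductQuotients.result
    {L : Type} [Field L] [Algebra ℂ L] {n : ℕ} (F : Fin n → IntermediateField ℂ L)
    (hF : PQ.CurveProduct F) (G : Subgroup (L ≃ₐ[ℂ] L)) [Finite G] (m : ℕ)
    (R : ∀ i, ValuationSubring (F i) → ℕ) (bl : Fin n → Fin n) (hG : PM.Weighted F G m R bl) :
    ((∃ i, PQ.Rational (F i)) ∧ T1.Uniruled (IntermediateField.fixedField G)) ∨
      ((∀ i, ¬ PQ.Rational (F i)) ∧ PQ.Plurigenus (IntermediateField.fixedField G) n m) :=
  PM.fin F hF G m R bl hG
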