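import Pool.Agent.Lib.MP_23b606_ag.T4.Cor

/-!
# Kodaira dimension and uniruledness for complete intersections in toric bundles

`k` is a field of finite transcendence degree `e` over `ℂ` and of Kodaira dimension `≥ 0` (the
rational functions on a base `B`; for a point `k = ℂ`, `e = 0`), `M` is a free abelian group of
finite rank (the characters of a torus `T`), a Laurent polynomial is a finitely supported function
`M →₀ k`, `χ : Multiplicative M →* K` is the generic point of a closed subvariety of `T` over `k`
with function field `K`, of transcendence degree `n` over `k`, and `f i` are `r = rank M - n`
arbitrary Laurent polynomials vanishing at `χ`. The Laurent polynomials `g i` with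
`supp f i ⊆ supp g i` say which monomials exist: `f i` and `g i` are sections of a line bundle `L i`
on a toric bundle `P` over `B` (a torus torsor times a toric variety), and `X ⊆ P` is the closure of
the variety with generic point `χ`, a component of the intersection of the divisors `{f i = 0}`.

`D` is a set of divisorial valuation rings of `K`, the prime divisors of `X`, and at every `O ∈ D`
the base, the bundle `P` and the intersection of the divisors are smooth (`T4.SmoothOver`), and
either the `L i` are generated at the centre of `O` over the generic point of the base by the
monomials of the `g i`, or `O` has its centre on a toric stratum of codimension at most two and only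
one of the `L i` is not generated there. So for `r = 1` nothing is assumed about the positivity of
`L 1` if the hypersurface `X` is smooth in codimension one.

If no nonzero pluricanonical form is regular at all the `O ∈ D` (for a model with canonical
singularities: if the Kodaira dimension of `K` is `-∞`, `T3.kodairaNegOn_of_canonical`), then `K` is
uniruled. For `k = ℂ`, `e = 0` this contains the theorem about complete intersections of arbitrary
members of linear systems on toric varieties (`T4.main3_smooth'`), and for schön varieties one can
take for `D` all divisorial valuation rings (`T3.smoothAt_of_nondegAt`, `T3.main_at'`).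
-/

theorem Pool.Agent.Results.MP_23b606_ag.ToricBundleIntersections.result
    {k : Type} [Field k] [Algebra ℂ k] {K : Type} [Field K] [Algebra ℂ K] [Algebra k K]
    [IsScalarTower ℂ k K] {e n : ℕ} (he : Algebra.trdeg ℂ k = e) (hk : ¬ T1.KodairaNegInf k e)
    {M : Type} [AddCommGroup M] [Module.Free ℤ M] [Module.Finite ℤ M]
    {ι : Type} [Fintype ι] [DecidableEq ι] (f g : ι → M →₀ k)
    (hfg : ∀ i, (f i).support ⊆ (g i).support) (χ : Multiplicative M →* K) (hχ : T4.Pt f χ n)
    (D : Set (ValuationSubring K)) (hD : ∀ O ∈ D, T1.IsDiv (n + e) O ∧ T4.SmoothOver n e f g χ O)
    (hκ : T3.KodairaNegOn D (n + e)) : T1.Uniruled K :=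
  T4.main4_smooth he hk hfg χ hχ hD hκ
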